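import Mathlib
import Pool.Agent.V11132.AM

namespace Pool.Agent.Results.MP_f5b38d_co.BelowBeta

open SimpleGraph Pool.Agent.V11132.AM

/-- A leaf is a vertex with exactly one neighbour. -/
def IsLeaf {V : Type*} (G : SimpleGraph V) (v : V) : Prop := (G.neighborSet v).ncard = 1

/-- The internal edges are the edges neither of whose ends is a leaf. -/
def internalEdges {V : Type*} (G : SimpleGraph V) : Set (Sym2 V) :=
  {e | e ∈ G.edgeSet ∧ ∀ v ∈ e, ¬ IsLeaf G v}

/-- The number of components of `G` isomorphic to the path on `r` vertices. -/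
noncomputable def pathComponents {V : Type*} (G : SimpleGraph V) (r : ℕ) : ℕ :=
  {C : G.ConnectedComponent | Nonempty (G.induce C.supp ≃g pathGraph r)}.ncard

/-- The bound `β(G)`; here `Nat.card V`, `G.edgeSet.ncard`, `(internalEdges G).ncard` and
`pathComponents G 3` are the numbers `n, m, k, t'` of the problem. -/
noncomputable def beta {V : Type*} (G : SimpleGraph V) : ℤ :=
  ⌊min ((3 + 2 * √2) * ((G.edgeSet.ncard : ℝ) - (Nat.card V : ℝ)) +
      (1 + √2) * ((G.edgeSet.ncard : ℝ) + 1 / 2))
    (2 * (G.edgeSet.ncard : ℝ) +
      5 * (((internalEdges G).ncard : ℝ) - (pathComponents G 3 : ℝ)) + 1)⌋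

/-- The disjoint union of the star with twenty edges and the cycle with four edges. -/
def starCycle : SimpleGraph ((Fin 1 ⊕ Fin 20) ⊕ Fin 4) :=
  completeBipartiteGraph (Fin 1) (Fin 20) ⊕g cycleGraph 4

theorem no_iso (v : (Fin 1 ⊕ Fin 20) ⊕ Fin 4) : ∃ w, starCycle.Adj v w := by
  rcases v with (v | v) | v
  · exact ⟨Sum.inl (Sum.inr 0), by simp [starCycle]⟩
  · exact ⟨Sum.inl (Sum.inl 0), by simp [starCycle]⟩
  · refine ⟨Sum.inr (v + 1), ?_⟩
    show (cycleGraph 4).Adj v (v + 1)
    revert v
    decide

theorem edges_card : starCycle.edgeSet.ncard = 24 := by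
  rw [starCycle, ((enum_star 20).sum enum_cycle4).ncard]
  simp

theorem four_le (C : starCycle.ConnectedComponent) : 4 ≤ C.supp.ncard := by
  induction C using ConnectedComponent.ind with
  | h v =>
    rcases v with v | v
    · have h1 : ∀ w, starCycle.Reachable (Sum.inl (Sum.inl 0)) (Sum.inl w) := by
        rintro (w | w)
        · rw [Subsingleton.elim w 0]
        · exact Adj.reachable (by simp [starCycle])
      have h2 : Sum.inl '' (Set.univ : Set (Fin 1 ⊕ Fin 20)) ⊆
          (starCycle.connectedComponentMk (Sum.inl v)).supp := by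
        rintro _ ⟨w, -, rfl⟩
        rw [ConnectedComponent.mem_supp_iff, ConnectedComponent.eq]
        exact (h1 w).symm.trans (h1 v)
      have h3 := Set.ncard_le_ncard h2 (Set.toFinite _)
      rw [Set.ncard_image_of_injective _ Sum.inl_injective, Set.ncard_univ] at h3
      simp at h3
      omega
    · have h0 : ∀ w : Fin 4, starCycle.Reachable (Sum.inr w) (Sum.inr (w + 1)) := by
        intro w
        apply Adj.reachable
        show (cycleGraph 4).Adj w (w + 1)
        revert w
        decide
      have h1 : ∀ w : Fin 4, starCycle.Reachable (Sum.inr 0) (Sum.inr w) := by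
        intro w
        fin_cases w
        · exact Reachable.refl _
        · exact h0 0
        · exact (h0 0).trans (h0 1)
        · exact ((h0 0).trans (h0 1)).trans (h0 2)
      have h2 : Sum.inr '' (Set.univ : Set (Fin 4)) ⊆
          (starCycle.connectedComponentMk (Sum.inr v)).supp := by
        rintro _ ⟨w, -, rfl⟩
        rw [ConnectedComponent.mem_supp_iff, ConnectedComponent.eq]
        exact (h1 w).symm.trans (h1 v)
      have h3 := Set.ncard_le_ncard h2 (Set.toFinite _)
      rw [Set.ncard_image_of_injective _ Sum.inr_injective, Set.ncard_univ] at h3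
      simpa using h3

theorem no_path (r : ℕ) (hr : r ≤ 3) : pathComponents starCycle r = 0 := by
  unfold pathComponents
  rw [Set.ncard_eq_zero (Set.toFinite _)]
  ext C
  simp only [Set.mem_ofPred_eq, Set.mem_empty_iff_false, iff_false]
  rintro ⟨φ⟩
  have h1 := four_le C
  have h2 : Nat.card C.supp = Nat.card (Fin r) := Nat.card_congr φ.toEquiv
  rw [Nat.card_coe_set_eq, Nat.card_fin] at h2
  omega

theorem leaf (i : Fin 20) : IsLeaf starCycle (Sum.inl (Sum.inr i)) := by
  have : starCycle.neighborSet (Sum.inl (Sum.inr i)) = {Sum.inl (Sum.inl 0)} := by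
    ext v
    rcases v with (v | v) | v
    · simp [starCycle]
      exact Subsingleton.elim _ _
    · simp [starCycle]
    · simp [starCycle]
  rw [IsLeaf, this, Set.ncard_singleton]

theorem not_leaf (c : Fin 4) : ¬ IsLeaf starCycle (Sum.inr c) := by
  have h : (cycleGraph 4).neighborSet c = {c + 1, c + 3} := by
    ext v
    simp only [mem_neighborSet, Set.mem_insert_iff, Set.mem_singleton_iff]
    revert c v
    decide
  have h2 : ∀ c : Fin 4, c + 1 ≠ c + 3 := by decide
  rw [IsLeaf, starCycle, neighborSet_sum_inr, Set.ncard_image_of_injective _ Sum.inr_injective, h,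
    Set.ncard_pair (h2 c)]
  norm_num

theorem internal_card : (internalEdges starCycle).ncard = 4 := by
  have : internalEdges starCycle = Sym2.map Sum.inr '' (cycleGraph 4).edgeSet := by
    ext e
    induction e with
    | _ x y =>
      constructor
      · rintro ⟨h1, h2⟩
        rcases x with (x | x) | x <;> rcases y with (y | y) | y
        · simp [starCycle] at h1
        · exact absurd (leaf y) (h2 _ (Sym2.mem_mk_right _ _))
        · simp [starCycle] at h1
        · exact absurd (leaf x) (h2 _ (Sym2.mem_mk_left _ _))
        · simp [starCycle] at h1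
        · simp [starCycle] at h1
        · simp [starCycle] at h1
        · simp [starCycle] at h1
        · refine ⟨s(x, y), ?_, rfl⟩
          simpa [starCycle] using h1
      · rintro ⟨e, he, hxy⟩
        rw [← hxy]
        clear hxy
        induction e with
        | _ a b =>
          refine ⟨by simpa [starCycle] using he, ?_⟩
          intro v hv
          simp only [Sym2.map_mk, Sym2.mem_iff] at hv
          rcases hv with rfl | rfl
          · exact not_leaf _
          · exact not_leaf _
  rw [this, Set.ncard_image_of_injective _ (Sym2.map.injective Sum.inr_injective),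
    enum_cycle4.ncard]
  rfl

theorem beta_eq : beta starCycle = 53 := by
  unfold beta
  have h4 : 1.4 ≤ √2 := Real.le_sqrt_of_sq_le (by norm_num)
  have h5 : √2 ≤ 1.42 := Real.sqrt_le_iff.2 ⟨by norm_num, by norm_num⟩
  rw [internal_card, no_path 3 le_rfl, edges_card]
  rw [Int.floor_eq_iff]
  simp
  constructor
  · constructor
    · linarith
    · norm_num
  · left
    linarith

theorem antimagic_G : Antimagic starCycle := by
  refine antimagic_of_enum ((enum_star 20).sum enum_cycle4)
    (Sum.elim (fun i => i.1 + 1) ![21, 22, 24, 23]) (by decide +kernel) (by decide +kernel)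
    (Sum.elim (Sum.elim (fun _ => 210) (fun i => i.1 + 1)) ![44, 43, 46, 47])
    (by decide +kernel) (by decide +kernel)

theorem tau_le_52 : tau starCycle ≤ ((52 : ℕ∞) : WithBot ℕ∞) := by
  apply tau_le (s := 52)
  intro h
  have hiso : ∀ v, ∃ w, (starCycle ⊕g copiesP3 53).Adj v w := by
    rintro (v | ⟨i, k⟩)
    · obtain ⟨w, hw⟩ := no_iso v
      exact ⟨Sum.inl w, hw⟩
    · exact p3_no_iso _ i k
  have h1 := count_two _ hiso h (Sum.inl (Sum.inl (Sum.inl 0))) 20 (by
    rw [neighborSet_sum_inl, Set.ncard_image_of_injective _ Sum.inl_injective, starCycle,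
      neighborSet_sum_inl, Set.ncard_image_of_injective _ Sum.inl_injective]
    have : (completeBipartiteGraph (Fin 1) (Fin 20)).neighborSet (Sum.inl 0) =
        Sum.inr '' Set.univ := by
      ext (v | v) <;> simp
    rw [this, Set.ncard_image_of_injective _ Sum.inr_injective, Set.ncard_univ]
    simp)
  rw [starCycle, (((enum_star 20).sum enum_cycle4).sum (enum_P3 53)).ncard] at h1
  simp at h1

/-- There is a graph `G` with no isolated vertex and no component isomorphic to the path on two
vertices such that `β(G) ≥ 0` and `τ(G) < β(G)`. Here `G` is moreover antimagic. -/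
theorem result :
    ∃ (V : Type) (_ : Fintype V) (G : SimpleGraph V),
      (∀ v, ∃ w, G.Adj v w) ∧ pathComponents G 2 = 0 ∧ Antimagic G ∧ 0 ≤ beta G ∧
      tau G < (((beta G).toNat : ℕ∞) : WithBot ℕ∞) := by
  refine ⟨_, inferInstance, starCycle, no_iso, no_path 2 (by norm_num), antimagic_G, ?_, ?_⟩
  · rw [beta_eq]; norm_num
  · refine lt_of_le_of_lt tau_le_52 ?_
    rw [beta_eq]
    rw [WithBot.coe_lt_coe]
    exact_mod_cast (by norm_num : (52 : ℕ) < 53)

end Pool.Agent.Results.MP_f5b38d_co.BelowBeta
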